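import Pool.Agent.Work.MP_85af13_lc.G.A.Pot

set_option autoImplicit false
set_option linter.unusedVariables false
set_option linter.unusedSimpArgs false

/-!
# Solutions of bounded size

PROOF. Let `y` be a solution. For the maximizer's vertices `v < A.length` let `σ v ∈ edges A v` with `y v ≤ y (σ v).1 + wgt (σ v)`. Along every walk
of `A` under `σ` the potential `y` telescopes: `y v ≤ y u + wsum l`, so closed walks are nonnegative. `potentials` with
`Rg v := v < A.length` (closed: `Closed A`) gives `d` with `-(tot A) ≤ d ≤ 0`; `x := d + tot A`.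
-/

namespace Pool.Agent.Work.MP_85af13_lc.G

open Pool.Agent.Work.PolyTime
open Pool.Agent.Work.MP_63b90e_lc (addB shiftB)
open Pool.Agent.Work.MP_62a643_lc (leB mulN dv)

theorem box (A : Arena) (hc : Closed A) (h : Feasible A) :
    ∃ x : ℕ → ℤ, Sol A x ∧ ∀ v, 0 ≤ x v ∧ x v ≤ tot A := by
  classical
  obtain ⟨y, hy⟩ := h
  have hex : ∀ v, v < A.length → owner A v = true →
      ∃ e ∈ edges A v, y v ≤ y e.1 + wgt e := fun v hv ho => (hy v hv).1 ho
  let σ : ℕ → WEdge := fun v =>
    if hv : v < A.length then (if ho : owner A v = true then (hex v hv ho).choose else (0, false, []))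
    else (0, false, [])
  have hσ : ∀ v < A.length, owner A v = true → σ v ∈ edges A v ∧ y v ≤ y (σ v).1 + wgt (σ v) := by
    intro v hv ho
    have h1 : σ v = (hex v hv ho).choose := by
      simp only [σ]
      rw [dif_pos hv, dif_pos ho]
    rw [h1]
    exact (hex v hv ho).choose_spec
  have hAv : ∀ v e, Av A σ v e → e ∈ edges A v ∧ y v ≤ y e.1 + wgt e := by
    intro v e he
    obtain ⟨hv, h1⟩ := he
    cases ho : owner A v with
    | true =>
      rw [if_pos ho] at h1
      rw [h1]
      exact hσ v hv ho
    | false =>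
      rw [if_neg (by rw [ho]; exact Bool.false_ne_true)] at h1
      exact ⟨h1, (hy v hv).2 ho e h1⟩
  have hcl : ∀ v e, v < A.length → Av A σ v e → e.1 < A.length :=
    fun v e hv he => hc v hv e (hAv v e he).1
  have htel : ∀ v l u, Walk A σ v l u → y v ≤ y u + wsum l := by
    intro v l u hw
    induction hw with
    | nil v => simp [wsum]
    | @cons v e l u he hw ih =>
      have h1 := (hAv v e he).2
      have h2 : wsum (e :: l) = wgt e + wsum l := by simp [wsum]
      rw [h2]
      linarith
  obtain ⟨d, hd1, hd2⟩ := potentials A σ (fun v => v < A.length) hcl (fun v hv ho => (hσ v hv ho).1)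
    (fun c l _ hw => by
      have := htel c l c hw
      linarith)
  refine ⟨fun v => d v + tot A, ?_, ?_⟩
  · intro v hv
    refine ⟨fun ho => ⟨σ v, (hσ v hv ho).1, ?_⟩, fun ho e he => ?_⟩
    · have h1 := hd2 v (σ v) hv ⟨hv, by rw [if_pos ho]⟩
      simp only
      linarith
    · have h1 := hd2 v e hv ⟨hv, by rw [if_neg (by rw [ho]; exact Bool.false_ne_true)]; exact he⟩
      simp only
      linarith
  · intro v
    have := hd1 v
    simp only
    constructor <;> linarith

end Pool.Agent.Work.MP_85af13_lc.G
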