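import Pool.Agent.Work.MP_85af13_lc.G.ADefs

set_option autoImplicit false
set_option linter.unusedVariables false
set_option linter.unusedSimpArgs false

/-!
# A walk without repeated sources is realised by a positional strategy of the minimizer

PROOF. Let `S = srcs s l` (same length as `l`). Define `τ v :=` the edge `l[i]` with `i = S.idxOf v` if `v ∈ S` and `owner A v = false`,
and an arbitrary member of `edges A v` (exists by `hne`; outside the arena anything) otherwise. `Strat A τ`: for a source `S[i]`
with the owner `false`, `l[i] ∈ edges A S[i]` by `Av`. By induction on `t`: for `t < l.length` the position at time `t` is `S[t]` and the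
move is `l[t]` (if the owner of `S[t]` is `true` then `l[t] = σ S[t]` by `Av`; otherwise `τ S[t] = l[t]` because `S` has no repetition), so the
next position is `l[t].1`, which is `S[t+1]` or the end `u`. It may be easier to prove first: `Walk A σ s l u` gives for all `t < l.length`:
`Av A σ S[t] l[t]` and `l[t].1 = S[t+1]` (or `u` if `t + 1 = l.length`), and `S[0] = s`.
-/

namespace Pool.Agent.Work.MP_85af13_lc.G

open Pool.Agent.Work.PolyTime
open Pool.Agent.Work.MP_63b90e_lc (addB shiftB)
open Pool.Agent.Work.MP_62a643_lc (leB mulN dv)

theorem srcs_length (v : ℕ) (l : List WEdge) : (srcs v l).length = l.length := by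
  induction l generalizing v with
  | nil => rfl
  | cons e l ih =>
    rw [srcs, List.length_cons, ih, List.length_cons]

private theorem steps {A : Arena} {σ : ℕ → WEdge} {s u : ℕ} {l : List WEdge}
    (h : Walk A σ s l u) : (srcs s l ++ [u]).getD 0 0 = s ∧ ∀ t, t < l.length →
      Av A σ ((srcs s l).getD t 0) (l.getD t (0, false, [])) ∧
      (srcs s l ++ [u]).getD (t + 1) 0 = (l.getD t (0, false, [])).1 := by
  induction h with
  | nil v => exact ⟨rfl, fun t ht => absurd ht (by simp)⟩
  | @cons v e l u hA _ ih =>
    refine ⟨rfl, ?_⟩
    intro t ht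
    cases t with
    | zero => exact ⟨hA, ih.1⟩
    | succ t =>
      have h1 : t < l.length := by
        rw [List.length_cons] at ht
        omega
      exact ih.2 t h1

theorem follow (A : Arena) (σ : ℕ → WEdge) (s u : ℕ) (l : List WEdge)
    (hne : ∀ v < A.length, edges A v ≠ []) (hW : Walk A σ s l u) (hnd : (srcs s l).Nodup) :
    ∃ τ, Strat A τ ∧
      (∀ t, t < l.length → pos A σ τ s t = (srcs s l).getD t 0 ∧
        move A σ τ (pos A σ τ s t) = l.getD t (0, false, [])) ∧
      pos A σ τ s l.length = u := by
  classical
  obtain ⟨h0, hst⟩ := steps hW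
  have hlen := srcs_length s l
  obtain ⟨S, hS⟩ : ∃ S, S = srcs s l := ⟨_, rfl⟩
  rw [← hS] at h0 hst hlen hnd ⊢
  let τ : ℕ → WEdge := fun v => if v ∈ S ∧ owner A v = false then
    l.getD (S.idxOf v) (0, false, []) else (edges A v).headD (0, false, [])
  have happ : ∀ t, t < l.length → (S ++ [u]).getD t 0 = S.getD t 0 := by
    intro t ht
    exact List.getD_append _ _ _ _ (by omega)
  have hmove : ∀ t, t < l.length → move A σ τ (S.getD t 0) = l.getD t (0, false, []) := by
    intro t ht
    obtain ⟨⟨-, h1⟩, -⟩ := hst t ht
    unfold move
    by_cases ho : owner A (S.getD t 0) = true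
    · rw [if_pos ho] at h1 ⊢
      exact h1.symm
    · rw [if_neg ho]
      have ht' : t < S.length := by omega
      have hm : S.getD t 0 ∈ S := by
        rw [List.getD_eq_getElem _ _ ht']
        exact List.getElem_mem ht'
      have hi : S.idxOf (S.getD t 0) = t := by
        rw [List.getD_eq_getElem _ _ ht']
        exact hnd.idxOf_getElem t ht'
      show (if S.getD t 0 ∈ S ∧ owner A (S.getD t 0) = false then
        l.getD (S.idxOf (S.getD t 0)) (0, false, []) else _) = _
      rw [if_pos ⟨hm, by simpa using ho⟩, hi]
  have hpos : ∀ t, t ≤ l.length → pos A σ τ s t = (S ++ [u]).getD t 0 := by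
    intro t
    induction t with
    | zero => intro _; exact h0.symm
    | succ t ih =>
      intro ht
      have h1 : t < l.length := by omega
      show (move A σ τ (pos A σ τ s t)).1 = _
      rw [ih (by omega), happ t h1, hmove t h1, (hst t h1).2]
  refine ⟨τ, ?_, ?_, ?_⟩
  · intro v hv
    show (if v ∈ S ∧ owner A v = false then _ else _) ∈ edges A v
    split_ifs with h
    · have hi : S.idxOf v < S.length := List.idxOf_lt_length_iff.2 h.1
      obtain ⟨⟨-, h1⟩, -⟩ := hst (S.idxOf v) (by omega)
      have h2 : S.getD (S.idxOf v) 0 = v := by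
        rw [List.getD_eq_getElem _ _ hi]
        exact List.getElem_idxOf hi
      rw [h2, h.2] at h1
      simpa using h1
    · have h1 := hne v hv
      cases he : edges A v with
      | nil => exact absurd he h1
      | cons a b => simp
  · intro t ht
    have h1 : pos A σ τ s t = S.getD t 0 := by rw [hpos t ht.le, happ t ht]
    exact ⟨h1, by rw [h1]; exact hmove t ht⟩
  · rw [hpos _ le_rfl]
    have h1 : (S ++ [u]).getD l.length 0 = u := by
      rw [← hlen, List.getD_append_right _ _ _ _ le_rfl]
      simp
    exact h1

end Pool.Agent.Work.MP_85af13_lc.G
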