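import Pool.Agent.Work.MP_85af13_lc.G.A.Walk
import Pool.Agent.Work.MP_85af13_lc.G.A.Follow

set_option autoImplicit false
set_option linter.unusedVariables false
set_option linter.unusedSimpArgs false

/-!
# If the value is nonnegative then all reachable closed walks have nonnegative weight

PROOF. Suppose that there are `l`, `c`, `l'` with `Walk s l c`, `Walk c l' c`, `wsum l' < 0`. Among all such triples choose one with `l'.length`
minimal, and among these one with `l.length` minimal.
(i) `srcs c l'` has no repetition: otherwise `Walk.split` gives `l' = l1 ++ (l2 ++ l3)`, `l2 ≠ []`, `l1 ++ l3 ≠ []`, closed walk `l2` at `c2`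
(reached from `s` by `l ++ l1`) and closed walk `l1 ++ l3` at `c`; both are shorter than `l'` and one of them has negative weight.
(ii) no source of `l` is a source of `l'`: if `a ∈ srcs s l` and `a ∈ srcs c l'` then `l = p ++ q`, `q ≠ []`, `Walk s p a`
(`Walk.splitAt`) and `l' = x ++ y`, `Walk c x a`, `Walk a y c`; the closed walk `y ++ x` at `a` has the same length and weight as `l'`
and `p` is shorter than `l`.
(iii) `srcs s l` has no repetition: otherwise `l = l1 ++ (l2 ++ l3)` with `l2 ≠ []` and `l1 ++ l3` is a shorter walk from `s` to `c`.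
So `srcs s (l ++ l') = srcs s l ++ srcs c l'` has no repetition. `follow` gives `τ` with `pos l.length = c` (the source with index
`l.length`, or the end if `l' = []`, impossible since `wsum [] = 0`), `pos (l.length + l'.length) = c`, and the moves at the times
`l.length + i` are the edges of `l'`; the hypothesis `h` with `m = l.length`, `k = l'.length` says `0 ≤ wsum l'`, a contradiction.
-/

namespace Pool.Agent.Work.MP_85af13_lc.G

open Pool.Agent.Work.PolyTime
open Pool.Agent.Work.MP_63b90e_lc (addB shiftB)
open Pool.Agent.Work.MP_62a643_lc (leB mulN dv)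

theorem srcs_append {A : Arena} {σ : ℕ → WEdge} {v c : ℕ} {l m : List WEdge}
    (h : Walk A σ v l c) : srcs v (l ++ m) = srcs v l ++ srcs c m := by
  induction h with
  | nil v => rfl
  | cons h1 h2 ih =>
    rw [List.cons_append, srcs, srcs, ih, List.cons_append]

private theorem sum_getD (l : List WEdge) :
    ∑ i ∈ Finset.range l.length, wgt (l.getD i (0, false, [])) = wsum l := by
  induction l with
  | nil => rfl
  | cons e l ih =>
    rw [List.length_cons, Finset.sum_range_succ']
    simp only [List.getD_cons_succ, List.getD_cons_zero]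
    rw [ih, wsum, wsum, List.map_cons, List.sum_cons, add_comm]

theorem nonneg_of_value (A : Arena) (s : ℕ) (hne : ∀ v < A.length, edges A v ≠ [])
    (σ : ℕ → WEdge)
    (h : ∀ τ, Strat A τ → ∀ m k, pos A σ τ s (m + k) = pos A σ τ s m →
      0 ≤ ∑ i ∈ Finset.range k, wgt (move A σ τ (pos A σ τ s (m + i))))
    (c : ℕ) (l l' : List WEdge) (h1 : Walk A σ s l c) (h2 : Walk A σ c l' c) : 0 ≤ wsum l' := by
  suffices H : ∀ N : ℕ, ∀ M : ℕ, ∀ (c : ℕ) (l l' : List WEdge), l'.length = N → l.length = M →
      Walk A σ s l c → Walk A σ c l' c → 0 ≤ wsum l' from H _ _ c l l' rfl rfl h1 h2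
  clear h1 h2 c l l'
  intro N
  induction N using Nat.strong_induction_on with
  | _ N ihN =>
  intro M
  induction M using Nat.strong_induction_on with
  | _ M ihM =>
  intro c l l' hN hM h1 h2
  by_cases hd : (srcs c l').Nodup
  swap
  · obtain ⟨c2, l1, l2, l3, hl, hne2, hne13, w1, w2, w3⟩ := h2.split hd
    have hlen : l'.length = l1.length + (l2.length + l3.length) := by
      rw [hl, List.length_append, List.length_append]
    have hp2 : 0 < l2.length := List.length_pos_iff.2 hne2
    have hp13 : 0 < (l1 ++ l3).length := List.length_pos_iff.2 hne13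
    rw [List.length_append] at hp13
    have e1 : 0 ≤ wsum l2 := ihN l2.length (by omega) _ c2 (l ++ l1) l2 rfl rfl
      (h1.append w1) w2
    have e2 : 0 ≤ wsum (l1 ++ l3) := ihN (l1 ++ l3).length (by rw [List.length_append]; omega)
      _ c l (l1 ++ l3) rfl rfl h1 (w1.append w3)
    rw [wsum_append] at e2
    rw [hl, wsum_append, wsum_append]
    omega
  by_cases hdj : ∃ a, a ∈ srcs s l ∧ a ∈ srcs c l'
  · obtain ⟨a, ha1, ha2⟩ := hdj
    obtain ⟨p, q, hpq, hq, w1, w2⟩ := h1.splitAt ha1
    obtain ⟨x, y, hxy, hy, w3, w4⟩ := h2.splitAt ha2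
    have hp : p.length < M := by
      have : 0 < q.length := List.length_pos_iff.2 hq
      rw [← hM, hpq, List.length_append]
      omega
    have e1 : 0 ≤ wsum (y ++ x) := ihM p.length hp a p (y ++ x) (by
      rw [← hN, hxy, List.length_append, List.length_append, add_comm]) rfl w1 (w4.append w3)
    rw [wsum_append] at e1
    rw [hxy, wsum_append]
    omega
  by_cases hd2 : (srcs s l).Nodup
  swap
  · obtain ⟨c2, l1, l2, l3, hl, hne2, hne13, w1, w2, w3⟩ := h1.split hd2
    have hp2 : 0 < l2.length := List.length_pos_iff.2 hne2
    exact ihM (l1 ++ l3).length (by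
      rw [← hM, hl, List.length_append, List.length_append, List.length_append]
      omega) c (l1 ++ l3) l' hN rfl (w1.append w3) h2
  have hnd : (srcs s (l ++ l')).Nodup := by
    rw [srcs_append h1, List.nodup_append]
    exact ⟨hd2, hd, fun a ha b hb hab => hdj ⟨a, ha, hab ▸ hb⟩⟩
  obtain ⟨τ, hτ, hpos, hend⟩ := follow A σ s c (l ++ l') hne (h1.append h2) hnd
  rcases l' with _ | ⟨e, l''⟩
  · exact le_refl _
  · have hk : 0 < (e :: l'').length := by simp
    have hposl : pos A σ τ s l.length = c := by
      rw [(hpos l.length (by rw [List.length_append]; omega)).1, srcs_append h1,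
        List.getD_append_right _ _ _ _ (by rw [srcs_length]), srcs_length, Nat.sub_self]
      rfl
    have hfin := h τ hτ l.length (e :: l'').length (by
      rw [hposl, ← List.length_append, hend])
    rw [← sum_getD]
    refine hfin.trans (le_of_eq ?_)
    refine Finset.sum_congr rfl fun i hi => ?_
    have hi' := Finset.mem_range.1 hi
    rw [(hpos (l.length + i) (by rw [List.length_append]; omega)).2,
      List.getD_append_right _ _ _ _ (by omega), Nat.add_sub_cancel_left]

end Pool.Agent.Work.MP_85af13_lc.G
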