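import Pool.Agent.Work.MP_85af13_lc.G.A.Walk

set_option autoImplicit false
set_option linter.unusedVariables false
set_option linter.unusedSimpArgs false

/-!
# Potentials

PROOF. `d v := sInf {s : ℤ | ∃ l u, Walk A σ v l u ∧ wsum l = s}` if `Rg v`, and `d v := 0` otherwise. The set contains `0` (empty
walk) and is bounded below by `- tot A` (`walk_ge`). So `-(tot A) ≤ d v ≤ 0`, and the infimum is attained (`Int.csInf_mem`). For
`Rg v` and `Av A σ v e`: `Rg e.1`, take a walk `l` from `e.1` with `wsum l = d e.1`; then `e :: l` is a walk from `v` of weight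
`wgt e + d e.1`, so `d v ≤ d e.1 + wgt e`.
-/

namespace Pool.Agent.Work.MP_85af13_lc.G

open Pool.Agent.Work.PolyTime
open Pool.Agent.Work.MP_63b90e_lc (addB shiftB)
open Pool.Agent.Work.MP_62a643_lc (leB mulN dv)

theorem potentials (A : Arena) (σ : ℕ → WEdge) (Rg : ℕ → Prop)
    (hcl : ∀ v e, Rg v → Av A σ v e → Rg e.1)
    (hσ : ∀ v < A.length, owner A v = true → σ v ∈ edges A v)
    (hnn : ∀ c l, Rg c → Walk A σ c l c → 0 ≤ wsum l) :
    ∃ d : ℕ → ℤ, (∀ v, -(tot A : ℤ) ≤ d v ∧ d v ≤ 0) ∧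
      ∀ v e, Rg v → Av A σ v e → d v ≤ d e.1 + wgt e := by
  classical
  let St : ℕ → Set ℤ := fun v => {s : ℤ | ∃ l u, Walk A σ v l u ∧ wsum l = s}
  have h0 : ∀ v, (0 : ℤ) ∈ St v := fun v => ⟨[], v, Walk.nil v, rfl⟩
  have hbd : ∀ v, Rg v → BddBelow (St v) := by
    intro v hv
    refine ⟨-(tot A : ℤ), ?_⟩
    rintro s ⟨l, u, h, rfl⟩
    exact walk_ge A σ Rg hcl hσ hnn v u l hv h
  refine ⟨fun v => if Rg v then sInf (St v) else 0, fun v => ?_, fun v e hv he => ?_⟩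
  · beta_reduce
    split_ifs with hv
    · refine ⟨le_csInf ⟨0, h0 v⟩ ?_, csInf_le (hbd v hv) (h0 v)⟩
      rintro s ⟨l, u, h, rfl⟩
      exact walk_ge A σ Rg hcl hσ hnn v u l hv h
    · exact ⟨by omega, le_rfl⟩
  · have he1 : Rg e.1 := hcl v e hv he
    beta_reduce
    rw [if_pos hv, if_pos he1]
    obtain ⟨l, u, hl, hs⟩ := Int.csInf_mem ⟨0, h0 e.1⟩ (hbd e.1 he1)
    refine csInf_le (hbd v hv) ⟨e :: l, u, Walk.cons he hl, ?_⟩
    rw [← hs]
    unfold wsum
    rw [List.map_cons, List.sum_cons, add_comm]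

end Pool.Agent.Work.MP_85af13_lc.G
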