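import Pool.Agent.Work.MP_85af13_lc.G.ADefs
import Pool.Agent.Work.MP_85af13_lc.G.Red

/-!
# Polynomial time: tests of well-formedness and the maps `toMP`, `toMM`

PROOF. Library: `PTime.all`, `PTime.natLe`, `PTime.map`, `PTime.append`, `PTime.range`, `PTime.cond`, `PTime.nth` (for `getD`),
`PTime.flatMap`, `PTime.sumL`, `PTime.addB'`, `PTime.length`, `PTime.eq` and `fun_prop`; models: Check.lean, Reduce.lean. Membership in lists versus
indices: `v < A.length` gives `A.getD v _ = A[v] ∈ A`.
-/

set_option autoImplicit false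
set_option linter.unusedVariables false
set_option linter.unusedSimpArgs false

namespace Pool.Agent.Work.MP_85af13_lc.G

open Pool.Agent.Work.PolyTime
open Pool.Agent.Work.MP_63b90e_lc (addB shiftB)
open Pool.Agent.Work.MP_62a643_lc (leB mulN dv)

/-- Test of `Closed`. -/
def closedB (A : Arena) : Bool := A.all fun a => a.2.all fun e => decide (e.1 + 1 ≤ A.length)

/-- Test of `MPWF`. -/
def mpwfB (I : Arena × ℕ) : Bool :=
  decide (I.2 + 1 ≤ I.1.length) && ((I.1.all fun a => !(decide (a.2 = []))) && closedB I.1)

private theorem ta_forall (A : Arena) (p : Bool × List WEdge → Prop) :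
    (∀ a ∈ A, p a) ↔ ∀ v < A.length, p (A.getD v (true, [])) := by
  constructor
  · intro h v hv
    rw [List.getD_eq_getElem _ _ hv]
    exact h _ (List.getElem_mem hv)
  · intro h a ha
    obtain ⟨v, hv, rfl⟩ := List.mem_iff_getElem.1 ha
    have h1 := h v hv
    rw [List.getD_eq_getElem _ _ hv] at h1
    exact h1

theorem closedB_iff (A : Arena) : closedB A = true ↔ Closed A := by
  unfold closedB Closed edges
  rw [List.all_eq_true]
  simp only [List.all_eq_true, decide_eq_true_eq]
  exact ta_forall A (fun a => ∀ e ∈ a.2, e.1 + 1 ≤ A.length)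

theorem mpwfB_iff (I : Arena × ℕ) : mpwfB I = true ↔ MPWF I := by
  unfold mpwfB MPWF
  rw [Bool.and_eq_true, Bool.and_eq_true, closedB_iff, decide_eq_true_eq, List.all_eq_true]
  have h1 : (∀ a ∈ I.1, (!(decide (a.2 = []))) = true) ↔
      ∀ v < I.1.length, edges I.1 v ≠ [] := by
    have h2 := ta_forall I.1 (fun a => (!(decide (a.2 = []))) = true)
    rw [h2]
    unfold edges
    simp
  rw [h1]
  exact Iff.rfl

variable {α : Type} [Code α]

theorem PTime.owner {A : α → Arena} {v : α → ℕ} (hA : PTime A) (hv : PTime v) :
    PTime (fun x => G.owner (A x) (v x)) := by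
  unfold G.owner
  exact PTime.fst.comp (PTime.nth hA hv (PTime.const _))

theorem PTime.edges {A : α → Arena} {v : α → ℕ} (hA : PTime A) (hv : PTime v) :
    PTime (fun x => G.edges (A x) (v x)) := by
  unfold G.edges
  exact PTime.snd.comp (PTime.nth hA hv (PTime.const _))

theorem PTime.totB {A : α → Arena} (hA : PTime A) : PTime (fun x => G.totB (A x)) := by
  unfold G.totB
  refine PTime.sumL (PTime.map (f := fun _ (e : WEdge) => e.2.2)
    (PTime.flatMap (f := fun _ (a : Bool × List WEdge) => a.2) hA ?_) ?_)
  · exact PTime.snd.comp PTime.snd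
  · exact PTime.snd.comp (PTime.snd.comp PTime.snd)

theorem PTime.closedB {A : α → Arena} (hA : PTime A) : PTime (fun x => G.closedB (A x)) := by
  unfold G.closedB
  refine PTime.all (p := fun x (a : Bool × List WEdge) =>
    a.2.all fun e => decide (e.1 + 1 ≤ (A x).length)) hA ?_
  refine PTime.all (p := fun (y : α × (Bool × List WEdge)) (e : WEdge) =>
    decide (e.1 + 1 ≤ (A y.1).length)) (PTime.snd.comp PTime.snd) ?_
  exact PTime.natLe (PTime.succ (PTime.fst.comp PTime.snd))
    (PTime.length (hA.comp (PTime.fst.comp PTime.fst)))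

theorem PTime.mpwfB {I : α → Arena × ℕ} (hI : PTime I) : PTime (fun x => G.mpwfB (I x)) := by
  unfold G.mpwfB
  refine PTime.and (PTime.natLe (PTime.succ (PTime.snd.comp hI))
    (PTime.length (PTime.fst.comp hI))) (PTime.and ?_ (PTime.closedB (PTime.fst.comp hI)))
  refine PTime.all (p := fun _ (a : Bool × List WEdge) => !(decide (a.2 = [])))
    (PTime.fst.comp hI) ?_
  exact PTime.not (PTime.eq (PTime.snd.comp PTime.snd) (PTime.const []))

private theorem PTime.edges' {A : α → Arena} {v : α → ℕ} (hA : PTime A) (hv : PTime v) :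
    PTime (fun x => G.edges' (A x) (v x)) := by
  unfold G.edges'
  refine PTime.cond (PTime.eq (PTime.edges hA hv) (PTime.const [])) ?_ (PTime.edges hA hv)
  exact PTime.cons (PTime.prodMk hv (PTime.prodMk (PTime.owner hA hv) (PTime.const _)))
    (PTime.const [])

theorem PTime.toMP {A : α → Arena} (hA : PTime A) : PTime (fun x => G.toMP (A x)) := by
  unfold G.toMP
  refine PTime.prodMk (PTime.append ?_ ?_) (PTime.length hA)
  · refine PTime.map (f := fun x (v : ℕ) => (G.owner (A x) v, G.edges' (A x) v))
      (PTime.range (PTime.length hA)) ?_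
    exact PTime.prodMk (PTime.owner (hA.comp PTime.fst) PTime.snd)
      (PTime.edges' (hA.comp PTime.fst) PTime.snd)
  · refine PTime.cons (PTime.prodMk (PTime.const false) ?_) (PTime.const [])
    refine PTime.map (f := fun _ (v : ℕ) => ((v, false, []) : WEdge))
      (PTime.range (PTime.succ (PTime.length hA))) ?_
    exact PTime.prodMk PTime.snd (PTime.const (false, []))

theorem PTime.toMM {I : α → Arena × ℕ} (hI : PTime I) : PTime (fun x => G.toMM (I x)) := by
  unfold G.toMM
  have hlen : PTime (fun x => (I x).1.length) := PTime.length (PTime.fst.comp hI)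
  refine PTime.append (PTime.append ?_ (PTime.fst.comp hI)) ?_
  · refine PTime.map (f := fun x (v : ℕ) => ((true, [(2 * (I x).1.length, false, []),
      ((I x).1.length + v, false, [])]) : Bool × List WEdge)) (PTime.range hlen) ?_
    refine PTime.prodMk (PTime.const true) (PTime.cons ?_ (PTime.cons ?_ (PTime.const [])))
    · exact PTime.prodMk (PTime.natMul (PTime.const 2) (hlen.comp PTime.fst))
        (PTime.const (false, []))
    · exact PTime.prodMk (PTime.natAdd (hlen.comp PTime.fst) PTime.snd)
        (PTime.const (false, []))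
  · refine PTime.cons (PTime.prodMk (PTime.const false) (PTime.cons (PTime.prodMk
      (PTime.snd.comp hI) (PTime.prodMk (PTime.const true) ?_)) (PTime.const []))) (PTime.const [])
    exact PTime.addB' (PTime.const [true]) (PTime.totB (PTime.fst.comp hI))

end Pool.Agent.Work.MP_85af13_lc.G
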