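import Pool.Agent.Work.MP_85af13_lc.G.ADefs

set_option autoImplicit false
set_option linter.unusedVariables false
set_option linter.unusedSimpArgs false

/-!
# Potentials give nonnegative cycles

PROOF. Telescoping: `pos` stays in `Rg` by induction (`move` at a vertex `v` of the arena satisfies `Av`: it is `σ v` for the maximizer and
`τ v ∈ edges A v` for the minimizer), and `∑_{i<k} wgt (move at time m+i) ≥ ∑ (d (pos (m+i)) - d (pos (m+i+1))) = d (pos m) - d (pos (m+k)) = 0`
(`Finset.sum_range_sub'`).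
-/

namespace Pool.Agent.Work.MP_85af13_lc.G

open Pool.Agent.Work.PolyTime
open Pool.Agent.Work.MP_63b90e_lc (addB shiftB)
open Pool.Agent.Work.MP_62a643_lc (leB mulN dv)

private theorem av_move (A : Arena) (σ τ : ℕ → WEdge) (hτ : Strat A τ) {v : ℕ}
    (hv : v < A.length) : Av A σ v (move A σ τ v) := by
  refine ⟨hv, ?_⟩
  unfold move
  by_cases h : owner A v = true
  · simp [h]
  · simp only [h, if_false, Bool.false_eq_true]
    exact hτ v hv

theorem pos_mem (A : Arena) (σ τ : ℕ → WEdge) (s : ℕ) (Rg : ℕ → Prop) (hs : Rg s)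
    (hlt : ∀ v, Rg v → v < A.length) (hcl : ∀ v e, Rg v → Av A σ v e → Rg e.1)
    (hτ : Strat A τ) (t : ℕ) : Rg (pos A σ τ s t) := by
  induction t with
  | zero => exact hs
  | succ t ih => exact hcl _ _ ih (av_move A σ τ hτ (hlt _ ih))

theorem sum_nonneg_of_potential (A : Arena) (σ τ : ℕ → WEdge) (s : ℕ) (Rg : ℕ → Prop) (hs : Rg s)
    (hlt : ∀ v, Rg v → v < A.length) (hcl : ∀ v e, Rg v → Av A σ v e → Rg e.1)
    (hτ : Strat A τ) (d : ℕ → ℤ) (hd : ∀ v e, Rg v → Av A σ v e → d v ≤ d e.1 + wgt e)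
    (m k : ℕ) (hmk : pos A σ τ s (m + k) = pos A σ τ s m) :
    0 ≤ ∑ i ∈ Finset.range k, wgt (move A σ τ (pos A σ τ s (m + i))) := by
  have key : ∀ k, d (pos A σ τ s m) - d (pos A σ τ s (m + k)) ≤
      ∑ i ∈ Finset.range k, wgt (move A σ τ (pos A σ τ s (m + i))) := by
    intro k
    induction k with
    | zero => simp
    | succ k ih =>
      rw [Finset.sum_range_succ]
      have h1 := pos_mem A σ τ s Rg hs hlt hcl hτ (m + k)
      have h2 := hd _ _ h1 (av_move A σ τ hτ (hlt _ h1))
      have h3 : pos A σ τ s (m + (k + 1)) = (move A σ τ (pos A σ τ s (m + k))).1 := rfl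
      rw [h3]
      linarith
  have h := key k
  rw [hmk, sub_self] at h
  exact h

end Pool.Agent.Work.MP_85af13_lc.G
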