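import Pool.Agent.Work.MP_85af13_lc.G.A.Pot
import Pool.Agent.Work.MP_85af13_lc.G.A.Neg
import Pool.Agent.Work.MP_85af13_lc.G.A.Tele

set_option autoImplicit false
set_option linter.unusedVariables false
set_option linter.unusedSimpArgs false

/-!
# From mean payoff games to min-max systems

PROOF. `n = I.1.length`, `A = I.1`, `s = I.2`, `B = toMM I`, `B.length = 2 n + 1`. `v < n`: owner `true`, edges `[(2n, 0), (n + v, 0)]`;
`n + v` (`v < n`): owner and edges of `A` at `v` (targets `< n`); `2 n`: owner `false`, single edge `(s, -(1 + tot A))`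
(`binVal (totB A) = tot A`, `binVal_addB`, `binVal_sumL`). Write `g = 2 n`.
(→) Let `x` be a solution. For `v < n` with `x g < x v` we have `x v ≤ x (n + v)`, and if `owner A v` there is `e ∈ edges A v` with
`x (n + v) ≤ x e.1 + wgt e`: let `σ v` be such an edge (any edge otherwise). Let `τ` be a strategy and `p t = pos t` (all `p t < n`). Claim:
`x g < x (p t)` for all `t`. Otherwise let `T` be the least `t` with `x (p T) ≤ x g`. `x g + 1 + tot ≤ x s`, so `T > 0`. For
`t < T`: `x (p t) ≤ x (p (t+1)) + w_t`, `w_t` the weight of the move, so `1 + tot ≤ x s - x (p T) ≤ Σ_{t<T} w_t`. The positions `p t`, `t < T`, are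
distinct: if `p a = p b`, `a < b < T`, then `p (T - (b - a)) = p T` (positions depend only on the previous position), contradicting the choice
of `T`. Distinct positions give `Σ_{t<T} w_t ≤ Σ_v Σ_{e ∈ edges A v} |e| = tot` (see `tot_eq` in Walk.lean), a contradiction. Now for
`p (m+k) = p m` telescoping gives `0 ≤ Σ`.
(←) Let `σ` be optimal, `Rg v := ∃ l, Walk A σ s l v` (then `v < n`: by induction, `MPWF`). All closed walks at `c` with `Rg c` are nonnegative
(`nonneg_of_value`), `potentials` gives `d` on `Rg`. Define `x g := 0`; for `v < n`: `x v := d v - d s + 1 + tot` if `Rg v`, else `0`;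
`x (n + v) := x v` if `Rg v`, and `x (n + v) := - M` otherwise, where `M` is so large that `- M ≤ x u + wgt e` for all `e` in all
`edges A v`, `u = e.1`. Check: `v < n`, `Rg v`: edge `(n + v, 0)`; not `Rg v`: edge `(g, 0)`. `n + v`: if `Rg v` and `owner A v` the edge `σ v`
(`Rg` is closed under it), if `owner A v = false` all edges lead to `Rg` vertices; if not `Rg v` every edge works (there is one). `g`:
`0 ≤ x s - (1 + tot)` with equality.
-/

namespace Pool.Agent.Work.MP_85af13_lc.G

open Pool.Agent.Work.PolyTime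
open Pool.Agent.Work.MP_63b90e_lc (addB shiftB)
open Pool.Agent.Work.MP_62a643_lc (leB mulN dv)

private theorem toMM_length (I : Arena × ℕ) : (toMM I).length = 2 * I.1.length + 1 := by
  simp [toMM]
  omega

private theorem toMM_getA (I : Arena × ℕ) (v : ℕ) (hv : v < I.1.length) :
    (toMM I).getD v (true, []) =
      (true, [(2 * I.1.length, false, []), (I.1.length + v, false, [])]) := by
  rw [toMM, List.append_assoc, List.getD_append _ _ _ _ (by simpa using hv)]
  simp [List.getD_eq_getElem?_getD, hv]

private theorem toMM_getB (I : Arena × ℕ) (v : ℕ) (hv : v < I.1.length) :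
    (toMM I).getD (I.1.length + v) (true, []) = I.1.getD v (true, []) := by
  rw [toMM, List.append_assoc, List.getD_append_right _ _ _ _ (by simp)]
  simp only [List.length_map, List.length_range, Nat.add_sub_cancel_left]
  exact List.getD_append _ _ _ _ hv

private theorem toMM_getG (I : Arena × ℕ) :
    (toMM I).getD (2 * I.1.length) (true, []) =
      (false, [(I.2, true, addB [true] (totB I.1))]) := by
  rw [toMM, List.getD_append_right _ _ _ _ (by simp; omega)]
  simp only [List.length_append, List.length_map, List.length_range]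
  rw [show 2 * I.1.length - (I.1.length + I.1.length) = 0 by omega]
  rfl

private theorem ownerA (I : Arena × ℕ) (v : ℕ) (hv : v < I.1.length) :
    owner (toMM I) v = true := by
  rw [owner, toMM_getA I v hv]

private theorem edgesA (I : Arena × ℕ) (v : ℕ) (hv : v < I.1.length) :
    edges (toMM I) v = [(2 * I.1.length, false, []), (I.1.length + v, false, [])] := by
  rw [edges, toMM_getA I v hv]

private theorem ownerB (I : Arena × ℕ) (v : ℕ) (hv : v < I.1.length) :
    owner (toMM I) (I.1.length + v) = owner I.1 v := by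
  rw [owner, toMM_getB I v hv, owner]

private theorem edgesB (I : Arena × ℕ) (v : ℕ) (hv : v < I.1.length) :
    edges (toMM I) (I.1.length + v) = edges I.1 v := by
  rw [edges, toMM_getB I v hv, edges]

private theorem ownerG (I : Arena × ℕ) : owner (toMM I) (2 * I.1.length) = false := by
  rw [owner, toMM_getG]

private theorem edgesG (I : Arena × ℕ) :
    edges (toMM I) (2 * I.1.length) = [(I.2, true, addB [true] (totB I.1))] := by
  rw [edges, toMM_getG]

private theorem trich {n v : ℕ} (h : v < 2 * n + 1) :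
    v < n ∨ (∃ w, w < n ∧ v = n + w) ∨ v = 2 * n := by
  rcases lt_trichotomy v (2 * n) with h1 | h1 | h1
  · by_cases h2 : v < n
    · exact Or.inl h2
    · exact Or.inr (Or.inl ⟨v - n, by omega, by omega⟩)
  · exact Or.inr (Or.inr h1)
  · omega

theorem toMM_closed (I : Arena × ℕ) (h : MPWF I) : Closed (toMM I) := by
  intro v hv e he
  rw [toMM_length] at hv ⊢
  rcases trich hv with hv | ⟨w, hw, rfl⟩ | rfl
  · rw [edgesA I v hv] at he
    simp only [List.mem_cons, List.not_mem_nil, or_false] at he
    rcases he with rfl | rfl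
    · show 2 * I.1.length < 2 * I.1.length + 1
      omega
    · show I.1.length + v < 2 * I.1.length + 1
      omega
  · rw [edgesB I w hw] at he
    have := h.2.2 w hw e he
    omega
  · rw [edgesG] at he
    simp only [List.mem_cons, List.not_mem_nil, or_false] at he
    rw [he]
    show I.2 < 2 * I.1.length + 1
    have := h.1
    omega

private theorem totB_val (A : Arena) : binVal (totB A) = tot A := by
  rw [totB, binVal_sumL, tot, List.map_map]
  rfl

private theorem wgtG (I : Arena × ℕ) :
    wgt (I.2, true, addB [true] (totB I.1)) = -(1 + (tot I.1 : ℤ)) := by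
  simp only [wgt, if_true, binVal_addB, totB_val, binVal]
  push_cast
  simp

private theorem wgt_zero (u : ℕ) : wgt (u, false, []) = 0 := by
  simp [wgt, binVal]

private theorem wgt_le (e : WEdge) : wgt e ≤ (binVal e.2.2 : ℤ) := by
  rw [wgt]
  split_ifs
  · omega
  · exact le_refl _

private theorem wgt_ge (e : WEdge) : -(binVal e.2.2 : ℤ) ≤ wgt e := by
  rw [wgt]
  split_ifs
  · exact le_refl _
  · omega

private theorem bin_le {A : Arena} {v : ℕ} {e : WEdge} (he : e ∈ edges A v) :
    binVal e.2.2 ≤ ((edges A v).map fun e => binVal e.2.2).sum :=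
  List.single_le_sum (fun _ _ => Nat.zero_le _) _ (List.mem_map_of_mem he)

private theorem bin_le_tot {A : Arena} {v : ℕ} {e : WEdge} (hv : v < A.length)
    (he : e ∈ edges A v) : binVal e.2.2 ≤ tot A := by
  rw [tot_eq]
  exact (bin_le he).trans (Finset.single_le_sum
    (f := fun s => ((edges A s).map fun e => binVal e.2.2).sum)
    (fun _ _ => Nat.zero_le _) (Finset.mem_range.2 hv))

private theorem forward (I : Arena × ℕ) (h : MPWF I) (hval : ValueNonneg I.1 I.2) :
    Feasible (toMM I) := by
  classical
  obtain ⟨σ, hσ, hcyc⟩ := hval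
  have hlt : ∀ {v u : ℕ} {l : List WEdge}, Walk I.1 σ v l u → v < I.1.length →
      u < I.1.length := by
    intro v u l hw
    induction hw with
    | nil v => exact id
    | cons h1 h2 ih =>
      intro hv
      apply ih
      obtain ⟨h3, h4⟩ := h1
      refine h.2.2 _ h3 _ ?_
      split_ifs at h4
      · rw [h4]
        exact hσ _ h3
      · exact h4
  let Rg : ℕ → Prop := fun v => ∃ l, Walk I.1 σ I.2 l v
  have hRs : Rg I.2 := ⟨[], Walk.nil _⟩
  have hRlt : ∀ v, Rg v → v < I.1.length := fun v ⟨l, hl⟩ => hlt hl h.1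
  have hcl : ∀ v e, Rg v → Av I.1 σ v e → Rg e.1 := by
    rintro v e ⟨l, hl⟩ he
    exact ⟨l ++ [e], hl.append (Walk.cons he (Walk.nil _))⟩
  have hnn : ∀ c l, Rg c → Walk I.1 σ c l c → 0 ≤ wsum l := by
    rintro c l ⟨l0, hl0⟩ hl
    exact nonneg_of_value I.1 I.2 h.2.1 σ hcyc c l0 l hl0 hl
  obtain ⟨d, hd1, hd2⟩ := potentials I.1 σ Rg hcl (fun v hv _ => hσ v hv) hnn
  let X : ℕ → ℤ := fun v => if Rg v then d v - d I.2 + 1 + tot I.1 else 0
  let Y : ℕ → ℤ := fun v => if Rg v then d v - d I.2 + 1 + tot I.1 else -(tot I.1 : ℤ)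
  let x : ℕ → ℤ := fun w => if w < I.1.length then X w else
    if w < 2 * I.1.length then Y (w - I.1.length) else 0
  have hx1 : ∀ v < I.1.length, x v = X v := fun v hv => if_pos hv
  have hx2 : ∀ v < I.1.length, x (I.1.length + v) = Y v := by
    intro v hv
    simp only [x]
    rw [if_neg (by omega), if_pos (by omega), Nat.add_sub_cancel_left]
  have hx3 : x (2 * I.1.length) = 0 := by
    have := h.1
    simp only [x]
    rw [if_neg (by omega), if_neg (by omega)]
  have hX0 : ∀ u, 0 ≤ X u := by
    intro u
    simp only [X]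
    split_ifs
    · have e1 := (hd1 u).1
      have e2 := (hd1 I.2).2
      omega
    · exact le_refl _
  have hstep : ∀ v < I.1.length, Rg v → ∀ e, Av I.1 σ v e →
      x (I.1.length + v) ≤ x e.1 + wgt e := by
    intro v hv hR e he
    have e1 := hcl v e hR he
    rw [hx2 v hv, hx1 _ (hRlt _ e1)]
    simp only [X, Y]
    rw [if_pos hR, if_pos e1]
    have e2 := hd2 v e hR he
    omega
  have hstep' : ∀ v < I.1.length, ¬ Rg v → ∀ e ∈ edges I.1 v,
      x (I.1.length + v) ≤ x e.1 + wgt e := by
    intro v hv hR e he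
    rw [hx2 v hv, hx1 _ (h.2.2 v hv e he)]
    have e1 := hX0 e.1
    have e2 := wgt_ge e
    have e3 : (binVal e.2.2 : ℤ) ≤ tot I.1 := by exact_mod_cast bin_le_tot hv he
    simp only [Y]
    rw [if_neg hR]
    omega
  refine ⟨x, fun v hv => ?_⟩
  rw [toMM_length] at hv
  rcases trich hv with hv | ⟨w, hw, rfl⟩ | rfl
  · rw [ownerA I v hv, edgesA I v hv]
    refine ⟨fun _ => ?_, fun hh => absurd hh (by decide)⟩
    by_cases hR : Rg v
    · refine ⟨(I.1.length + v, false, []), by simp, ?_⟩
      rw [wgt_zero, hx1 v hv]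
      show X v ≤ x (I.1.length + v) + 0
      rw [hx2 v hv]
      simp only [X, Y]
      rw [if_pos hR, if_pos hR, add_zero]
    · refine ⟨(2 * I.1.length, false, []), by simp, ?_⟩
      rw [wgt_zero, hx1 v hv]
      show X v ≤ x (2 * I.1.length) + 0
      rw [hx3]
      simp only [X]
      rw [if_neg hR, add_zero]
  · rw [ownerB I w hw, edgesB I w hw]
    by_cases hR : Rg w
    · refine ⟨fun ho => ⟨σ w, hσ w hw, hstep w hw hR _ ⟨hw, ?_⟩⟩,
        fun ho e he => hstep w hw hR _ ⟨hw, ?_⟩⟩
      · rw [if_pos ho]
      · rw [if_neg (by rw [ho]; decide)]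
        exact he
    · refine ⟨fun ho => ⟨σ w, hσ w hw, hstep' w hw hR _ (hσ w hw)⟩,
        fun ho e he => hstep' w hw hR _ he⟩
  · rw [ownerG, edgesG]
    refine ⟨fun hh => absurd hh (by decide), fun _ e he => ?_⟩
    simp only [List.mem_cons, List.not_mem_nil, or_false] at he
    rw [he, wgtG, hx3]
    show 0 ≤ x I.2 + _
    rw [hx1 _ h.1]
    simp only [X]
    rw [if_pos hRs]
    omega

private theorem backward (I : Arena × ℕ) (h : MPWF I) (hf : Feasible (toMM I)) :
    ValueNonneg I.1 I.2 := by
  classical
  obtain ⟨x, hx⟩ := hf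
  have F1 : ∀ v < I.1.length, x v ≤ x (2 * I.1.length) ∨ x v ≤ x (I.1.length + v) := by
    intro v hv
    obtain ⟨e, he, hle⟩ := (hx v (by rw [toMM_length]; omega)).1 (ownerA I v hv)
    rw [edgesA I v hv] at he
    simp only [List.mem_cons, List.not_mem_nil, or_false] at he
    rcases he with rfl | rfl
    · left
      rw [wgt_zero, add_zero] at hle
      exact hle
    · right
      rw [wgt_zero, add_zero] at hle
      exact hle
  have F2 : ∀ v < I.1.length, owner I.1 v = true → ∃ e ∈ edges I.1 v,
      x (I.1.length + v) ≤ x e.1 + wgt e := by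
    intro v hv ho
    have h1 := (hx (I.1.length + v) (by rw [toMM_length]; omega)).1
      (by rw [ownerB I v hv]; exact ho)
    rwa [edgesB I v hv] at h1
  have F3 : ∀ v < I.1.length, owner I.1 v = false → ∀ e ∈ edges I.1 v,
      x (I.1.length + v) ≤ x e.1 + wgt e := by
    intro v hv ho
    have h1 := (hx (I.1.length + v) (by rw [toMM_length]; omega)).2
      (by rw [ownerB I v hv]; exact ho)
    rwa [edgesB I v hv] at h1
  have F4 : x (2 * I.1.length) ≤ x I.2 - (1 + (tot I.1 : ℤ)) := by
    have h1 := (hx (2 * I.1.length) (by rw [toMM_length]; omega)).2 (ownerG I)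
      (I.2, true, addB [true] (totB I.1)) (by rw [edgesG]; simp)
    rw [wgtG] at h1
    show x (2 * I.1.length) ≤ x I.2 + -(1 + (tot I.1 : ℤ))
    exact h1
  have hσex : ∀ v, ∃ e : WEdge, v < I.1.length → e ∈ edges I.1 v ∧
      (owner I.1 v = true → x (I.1.length + v) ≤ x e.1 + wgt e) := by
    intro v
    by_cases hv : v < I.1.length
    · cases ho : owner I.1 v
      · obtain ⟨e, he⟩ := List.exists_mem_of_ne_nil _ (h.2.1 v hv)
        exact ⟨e, fun _ => ⟨he, fun hh => absurd hh (by decide)⟩⟩
      · obtain ⟨e, he, hle⟩ := F2 v hv ho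
        exact ⟨e, fun _ => ⟨he, fun _ => hle⟩⟩
    · exact ⟨(0, false, []), fun hh => absurd hh hv⟩
  choose σ hσ using hσex
  refine ⟨σ, fun v hv => (hσ v hv).1, fun τ hτ m k hmk => ?_⟩
  -- properties of the moves
  have hmv : ∀ v < I.1.length, move I.1 σ τ v ∈ edges I.1 v := by
    intro v hv
    rw [move]
    split_ifs
    · exact (hσ v hv).1
    · exact hτ v hv
  have hmx : ∀ v < I.1.length, x (I.1.length + v) ≤ x (move I.1 σ τ v).1 +
      wgt (move I.1 σ τ v) := by
    intro v hv
    cases ho : owner I.1 v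
    · exact F3 v hv ho _ (hmv v hv)
    · rw [move, if_pos ho]
      exact (hσ v hv).2 ho
  have hpl : ∀ t, pos I.1 σ τ I.2 t < I.1.length := by
    intro t
    induction t with
    | zero => exact h.1
    | succ t ih => exact h.2.2 _ ih _ (hmv _ ih)
  have hmain : ∀ t, x (2 * I.1.length) < x (pos I.1 σ τ I.2 t) →
      x (pos I.1 σ τ I.2 t) ≤ x (pos I.1 σ τ I.2 (t + 1)) +
        wgt (move I.1 σ τ (pos I.1 σ τ I.2 t)) := by
    intro t ht
    rcases F1 _ (hpl t) with h1 | h1
    · omega
    · exact h1.trans (hmx _ (hpl t))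
  have htel : ∀ a j, (∀ i < j, x (2 * I.1.length) < x (pos I.1 σ τ I.2 (a + i))) →
      x (pos I.1 σ τ I.2 a) ≤ x (pos I.1 σ τ I.2 (a + j)) +
        ∑ i ∈ Finset.range j, wgt (move I.1 σ τ (pos I.1 σ τ I.2 (a + i))) := by
    intro a j
    induction j with
    | zero => intro _; simp
    | succ j ih =>
      intro hj
      have h1 := ih fun i hi => hj i (by omega)
      have h2 := hmain (a + j) (hj j (by omega))
      rw [Finset.sum_range_succ, show a + (j + 1) = a + j + 1 by ring]
      linarith
  have hclaim : ∀ t, x (2 * I.1.length) < x (pos I.1 σ τ I.2 t) := by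
    by_contra hcon
    push Not at hcon
    have hT := Nat.find_spec hcon
    have hmin : ∀ t < Nat.find hcon, x (2 * I.1.length) < x (pos I.1 σ τ I.2 t) := by
      intro t ht
      have := Nat.find_min hcon ht
      exact not_le.1 this
    set T := Nat.find hcon with hTdef
    have hshift : ∀ a b, pos I.1 σ τ I.2 a = pos I.1 σ τ I.2 b → ∀ j,
        pos I.1 σ τ I.2 (a + j) = pos I.1 σ τ I.2 (b + j) := by
      intro a b hab j
      induction j with
      | zero => exact hab
      | succ j ih =>
        rw [← Nat.add_assoc, ← Nat.add_assoc, pos, pos, ih]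
    have hinj' : ∀ a b, a < b → b < T → pos I.1 σ τ I.2 a ≠ pos I.1 σ τ I.2 b := by
      intro a b hab hb heq
      have h1 := hshift a b heq (T - b)
      rw [show b + (T - b) = T by omega] at h1
      have h2 := hmin (a + (T - b)) (by omega)
      rw [h1] at h2
      omega
    have hinj : Set.InjOn (fun t => pos I.1 σ τ I.2 t) (Finset.range T : Set ℕ) := by
      intro a ha b hb hab
      have ha' : a < T := by simpa using ha
      have hb' : b < T := by simpa using hb
      rcases lt_trichotomy a b with hlt | heq | hlt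
      · exact absurd hab (hinj' a b hlt hb')
      · exact heq
      · exact absurd hab.symm (hinj' b a hlt ha')
    have h1 := htel 0 T fun i hi => by
      rw [Nat.zero_add]
      exact hmin i hi
    simp only [Nat.zero_add] at h1
    have h2 : ∑ i ∈ Finset.range T, wgt (move I.1 σ τ (pos I.1 σ τ I.2 i)) ≤ (tot I.1 : ℤ) := by
      rw [tot_eq]
      have h3 : ∑ i ∈ Finset.range T, wgt (move I.1 σ τ (pos I.1 σ τ I.2 i)) ≤
          ∑ i ∈ Finset.range T,
            ((((edges I.1 (pos I.1 σ τ I.2 i)).map fun e => binVal e.2.2).sum : ℕ) : ℤ) := by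
        refine Finset.sum_le_sum fun i _ => ?_
        refine (wgt_le _).trans ?_
        exact_mod_cast bin_le (hmv _ (hpl i))
      refine h3.trans ?_
      rw [← Nat.cast_sum]
      have h4 : ∑ i ∈ Finset.range T,
          ((edges I.1 (pos I.1 σ τ I.2 i)).map fun e => binVal e.2.2).sum =
          ∑ v ∈ (Finset.range T).image (fun t => pos I.1 σ τ I.2 t),
            ((edges I.1 v).map fun e => binVal e.2.2).sum := by
        rw [Finset.sum_image hinj]
      rw [h4]
      exact_mod_cast Finset.sum_le_sum_of_subset (by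
        intro v hv
        obtain ⟨t, _, rfl⟩ := Finset.mem_image.1 hv
        exact Finset.mem_range.2 (hpl t))
    have h5 : pos I.1 σ τ I.2 0 = I.2 := rfl
    rw [h5] at h1
    omega
  have h1 := htel m k fun i _ => hclaim _
  rw [hmk] at h1
  linarith

theorem toMM_iff (I : Arena × ℕ) (h : MPWF I) :
    ValueNonneg I.1 I.2 ↔ Feasible (toMM I) := by
  exact ⟨forward I h, backward I h⟩

end Pool.Agent.Work.MP_85af13_lc.G
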