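import Pool.Agent.Work.MP_85af13_lc.G.A.ToMP
import Pool.Agent.Work.MP_85af13_lc.G.A.ToMM
import Pool.Agent.Work.MP_85af13_lc.G.A.TimeA
import Pool.Agent.Work.MP_85af13_lc.G.Red

set_option autoImplicit false
set_option linter.unusedVariables false
set_option linter.unusedSimpArgs false

/-!
# Min-max systems and mean payoff games are equivalent (assembly)
-/

namespace Pool.Agent.Work.MP_85af13_lc.G

open Pool.Agent.Work.PolyTime
open Pool.Agent.Work.MP_63b90e_lc (addB shiftB)
open Pool.Agent.Work.MP_62a643_lc (leB mulN dv)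

theorem minMax_le_meanPayoff : PolyReducible minMax meanPayoff :=
  reducible_of (wf := Closed) (yes := Feasible) (wf2 := MPWF)
    (yes2 := fun I => ValueNonneg I.1 I.2) closedB_iff (PTime.closedB PTime.id)
    (PTime.toMP PTime.id) toMP_wf toMP_iff

theorem meanPayoff_le_minMax : PolyReducible meanPayoff minMax :=
  reducible_of (wf := MPWF) (yes := fun I => ValueNonneg I.1 I.2) (wf2 := Closed)
    (yes2 := Feasible) mpwfB_iff (PTime.mpwfB PTime.id)
    (PTime.toMM PTime.id) toMM_closed toMM_iff

end Pool.Agent.Work.MP_85af13_lc.G
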