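import Pool.Agent.Work.MP_85af13_lc.G.A.Pot
import Pool.Agent.Work.MP_85af13_lc.G.A.Neg
import Pool.Agent.Work.MP_85af13_lc.G.A.Tele

set_option autoImplicit false
set_option linter.unusedVariables false
set_option linter.unusedSimpArgs false

/-!
# From min-max systems to mean payoff games

PROOF. `n = A.length`, `B = (toMP A).1`, `B.length = n + 1`. `owner B v = owner A v`, `edges B v = edges' A v` for `v < n`;
`owner B n = false`, `edges B n = (range (n+1)).map fun v => (v, false, [])`. Well-formedness is clear (`edges' A v ≠ []`, targets `< n + 1`).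
(→) Let `x` be a solution. `σ v :=` an edge `e ∈ edges A v` with `x v ≤ x e.1 + wgt e` if `v < n` and `owner A v`, otherwise the first
edge of `edges B v`. Potential `d v := x v` for `v < n`, `d n :=` a lower bound of all `x v`, `v < n` (exists, finite), and
`Rg v := v ≤ n`. For the minimizer at `v < n` with `edges A v = []` the only edge is the loop of weight `1` (`binVal [true] = 1`).
Use `sum_nonneg_of_potential`.
(←) Let `σ` be optimal. By `nonneg_of_value` (with `s = n`) all closed walks at vertices reachable from `n` are nonnegative; every `v < n` is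
reachable by one edge `(v, false, [])`. `potentials` with `Rg v := v ≤ n` gives `d`. `Sol A d`: for the maximizer the edge `σ v ∈ edges' A v`;
if `edges A v = []` it would be the loop of weight `-1` and `d v ≤ d v - 1`, a contradiction, so `σ v ∈ edges A v`. For the minimizer every
`e ∈ edges A v` is in `edges' A v`.
-/

namespace Pool.Agent.Work.MP_85af13_lc.G

open Pool.Agent.Work.PolyTime
open Pool.Agent.Work.MP_63b90e_lc (addB shiftB)
open Pool.Agent.Work.MP_62a643_lc (leB mulN dv)

private theorem lenB (A : Arena) : (toMP A).1.length = A.length + 1 := by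
  simp [toMP]

private theorem getB_lt (A : Arena) {v : ℕ} (hv : v < A.length) :
    (toMP A).1.getD v (true, []) = (owner A v, edges' A v) := by
  rw [List.getD_eq_getElem?_getD]
  simp only [toMP]
  rw [List.getElem?_append_left (by simpa using hv)]
  simp [hv]

private theorem getB_n (A : Arena) : (toMP A).1.getD A.length (true, []) =
    (false, (List.range (A.length + 1)).map fun v => (v, false, [])) := by
  rw [List.getD_eq_getElem?_getD]
  simp only [toMP]
  rw [List.getElem?_append_right (by simp)]
  simp

private theorem ownerB_lt (A : Arena) {v : ℕ} (hv : v < A.length) :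
    owner (toMP A).1 v = owner A v := by
  rw [owner, getB_lt A hv]

private theorem edgesB_lt (A : Arena) {v : ℕ} (hv : v < A.length) :
    edges (toMP A).1 v = edges' A v := by
  rw [edges, getB_lt A hv]

private theorem ownerB_n (A : Arena) : owner (toMP A).1 A.length = false := by
  rw [owner, getB_n A]

private theorem edgesB_n (A : Arena) : edges (toMP A).1 A.length =
    (List.range (A.length + 1)).map fun v => (v, false, []) := by
  rw [edges, getB_n A]

private theorem edges'_nil (A : Arena) {v : ℕ} (h : edges A v = []) :
    edges' A v = [(v, owner A v, [true])] := by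
  simp [edges', h]

private theorem edges'_ne (A : Arena) {v : ℕ} (h : edges A v ≠ []) : edges' A v = edges A v := by
  simp [edges', h]

private theorem closedB (A : Arena) (h : Closed A) : Closed (toMP A).1 := by
  intro v hv e he
  rw [lenB] at hv ⊢
  rcases Nat.lt_or_ge v A.length with h1 | h1
  · rw [edgesB_lt A h1] at he
    by_cases h2 : edges A v = []
    · rw [edges'_nil A h2, List.mem_singleton] at he
      rw [he]
      exact hv
    · rw [edges'_ne A h2] at he
      exact Nat.lt_succ_of_lt (h v h1 e he)
  · have h2 : v = A.length := by omega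
    subst h2
    rw [edgesB_n, List.mem_map] at he
    obtain ⟨u, hu, rfl⟩ := he
    exact List.mem_range.1 hu

private theorem neB (A : Arena) {v : ℕ} (hv : v < (toMP A).1.length) :
    edges (toMP A).1 v ≠ [] := by
  rw [lenB] at hv
  rcases Nat.lt_or_ge v A.length with h1 | h1
  · rw [edgesB_lt A h1]
    by_cases h2 : edges A v = []
    · rw [edges'_nil A h2]
      simp
    · rw [edges'_ne A h2]
      exact h2
  · have h2 : v = A.length := by omega
    subst h2
    rw [edgesB_n]
    simp

private theorem av_mem (A : Arena) {σ : ℕ → WEdge} (hσ : Strat A σ) {v : ℕ} {e : WEdge}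
    (h : Av A σ v e) : e ∈ edges A v := by
  obtain ⟨h1, h2⟩ := h
  by_cases h3 : owner A v = true
  · rw [if_pos h3] at h2
    rw [h2]
    exact hσ v h1
  · rw [if_neg h3] at h2
    exact h2

theorem toMP_wf (A : Arena) (h : Closed A) : MPWF (toMP A) := by
  refine ⟨?_, fun v hv => neB A hv, closedB A h⟩
  rw [lenB]
  exact Nat.lt_succ_self _

theorem toMP_iff (A : Arena) (h : Closed A) :
    Feasible A ↔ ValueNonneg (toMP A).1 (toMP A).2 := by
  have hlen := lenB A
  have hcl := closedB A h
  constructor
  · rintro ⟨x, hx⟩
    have hch : ∀ v, ∃ e : WEdge, (v < A.length + 1 → e ∈ edges (toMP A).1 v) ∧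
        (v < A.length → owner A v = true → e ∈ edges A v ∧ x v ≤ x e.1 + wgt e) := by
      intro v
      by_cases hv : v < A.length + 1
      · by_cases h1 : v < A.length ∧ owner A v = true
        · obtain ⟨e, he, h2⟩ := (hx v h1.1).1 h1.2
          refine ⟨e, fun _ => ?_, fun _ _ => ⟨he, h2⟩⟩
          rw [edgesB_lt A h1.1, edges'_ne A (List.ne_nil_of_mem he)]
          exact he
        · obtain ⟨e, he⟩ := List.exists_mem_of_ne_nil _ (neB A (by rw [hlen]; exact hv))
          exact ⟨e, fun _ => he, fun h2 h3 => absurd ⟨h2, h3⟩ h1⟩
      · exact ⟨(0, false, []), fun h1 => absurd h1 hv, fun h1 => absurd (Nat.lt_succ_of_lt h1) hv⟩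
    choose σ hσ1 hσ2 using hch
    have hσ : Strat (toMP A).1 σ := fun v hv => hσ1 v (by rw [hlen] at hv; exact hv)
    refine ⟨σ, hσ, fun τ hτ m k hmk => ?_⟩
    let M : ℤ := - ∑ u ∈ Finset.range A.length, |x u|
    have hM : ∀ v, v < A.length → M ≤ x v := by
      intro v hv
      have h1 : |x v| ≤ ∑ u ∈ Finset.range A.length, |x u| :=
        Finset.single_le_sum (f := fun u => |x u|) (fun _ _ => abs_nonneg _)
          (Finset.mem_range.2 hv)
      have h2 := neg_abs_le (x v)
      show - ∑ u ∈ Finset.range A.length, |x u| ≤ x v
      linarith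
    refine sum_nonneg_of_potential (toMP A).1 σ τ (toMP A).2 (fun v => v < A.length + 1)
      (Nat.lt_succ_self _) (fun v hv => by rw [hlen]; exact hv) (fun v e hv he => ?_) hτ
      (fun v => if v < A.length then x v else M) (fun v e hv he => ?_) m k hmk
    · have h1 := hcl v (by rw [hlen]; exact hv) e (av_mem _ hσ he)
      rwa [hlen] at h1
    · show (if v < A.length then x v else M) ≤ (if e.1 < A.length then x e.1 else M) + wgt e
      rcases Nat.lt_or_ge v A.length with h1 | h1
      · rw [if_pos h1]
        obtain ⟨-, he2⟩ := he
        rw [ownerB_lt A h1] at he2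
        by_cases h2 : owner A v = true
        · rw [if_pos h2] at he2
          subst he2
          obtain ⟨h3, h4⟩ := hσ2 v h1 h2
          rw [if_pos (h v h1 _ h3)]
          exact h4
        · rw [if_neg h2, edgesB_lt A h1] at he2
          have h2' : owner A v = false := by simpa using h2
          by_cases h5 : edges A v = []
          · rw [edges'_nil A h5, List.mem_singleton, h2'] at he2
            subst he2
            rw [if_pos h1]
            have h6 : wgt (v, false, [true]) = 1 := by simp [wgt, binVal]
            rw [h6]
            linarith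
          · rw [edges'_ne A h5] at he2
            rw [if_pos (h v h1 _ he2)]
            exact (hx v h1).2 h2' e he2
      · have h2 : v = A.length := by omega
        subst h2
        obtain ⟨-, he2⟩ := he
        rw [ownerB_n, if_neg (by decide), edgesB_n, List.mem_map] at he2
        obtain ⟨u, hu, rfl⟩ := he2
        have h6 : wgt (u, false, []) = 0 := by simp [wgt, binVal]
        rw [if_neg (lt_irrefl _), h6, add_zero]
        by_cases h7 : u < A.length
        · rw [if_pos h7]
          exact hM u h7
        · rw [if_neg h7]
  · rintro ⟨σ, hσ, hv⟩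
    have hnn := nonneg_of_value (toMP A).1 (toMP A).2 (fun v hv => neB A hv) σ hv
    obtain ⟨d, -, hd⟩ := potentials (toMP A).1 σ (fun v => v < A.length + 1)
      (fun v e hv he => by
        have h1 := hcl v (by rw [hlen]; exact hv) e (av_mem _ hσ he)
        rwa [hlen] at h1)
      (fun v hv _ => hσ v hv)
      (fun c l hc hl => by
        refine hnn c [(c, false, [])] l ?_ hl
        refine Walk.cons ⟨?_, ?_⟩ (Walk.nil c)
        · rw [hlen]
          exact Nat.lt_succ_self _
        · show if owner (toMP A).1 A.length = true then _ else _ ∈ edges (toMP A).1 A.length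
          rw [ownerB_n, if_neg (by decide), edgesB_n, List.mem_map]
          exact ⟨c, List.mem_range.2 hc, rfl⟩)
    refine ⟨d, fun v hv => ⟨fun ho => ?_, fun ho e he => ?_⟩⟩
    · have h1 : Av (toMP A).1 σ v (σ v) := by
        refine ⟨by rw [hlen]; exact Nat.lt_succ_of_lt hv, ?_⟩
        rw [ownerB_lt A hv, if_pos ho]
      have h2 := hd v (σ v) (Nat.lt_succ_of_lt hv) h1
      have h3 := hσ v (by rw [hlen]; exact Nat.lt_succ_of_lt hv)
      rw [edgesB_lt A hv] at h3
      by_cases h4 : edges A v = []
      · rw [edges'_nil A h4, List.mem_singleton, ho] at h3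
        rw [h3] at h2
        have h5 : wgt (v, true, [true]) = -1 := by simp [wgt, binVal]
        rw [h5] at h2
        exact absurd h2 (by
          show ¬ d v ≤ d v + -1
          linarith)
      · rw [edges'_ne A h4] at h3
        exact ⟨σ v, h3, h2⟩
    · refine hd v e (Nat.lt_succ_of_lt hv) ⟨by rw [hlen]; exact Nat.lt_succ_of_lt hv, ?_⟩
      rw [ownerB_lt A hv, ho, if_neg (by decide), edgesB_lt A hv,
        edges'_ne A (List.ne_nil_of_mem he)]
      exact he

end Pool.Agent.Work.MP_85af13_lc.G
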