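import Pool.Agent.Work.MP_85af13_lc.G.ADefs

set_option autoImplicit false
set_option linter.unusedVariables false
set_option linter.unusedSimpArgs false

/-!
# Walks: weights of walks are bounded below if closed walks have nonnegative weight

PROOF. `Walk.append`: induction on the first walk. `Walk.split`: if `srcs v l` has a repetition then
`l = l1 ++ l2 ++ l3` with `l2 ≠ []`, `Walk v l1 c`, `Walk c l2 c`, `Walk c l3 u`: induction on `l = e :: l'`; if `v ∈ srcs e.1 l'`
then `l' = a ++ b` with `Walk e.1 a v`, `Walk v b u` (small lemma by induction: every member `c` of `srcs v l` gives a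
splitting of the walk at `c`) and take `l1 = []`, `c = v`, `l2 = e :: a`, `l3 = b`; otherwise `srcs e.1 l'` has a repetition and the
induction hypothesis applies. `walk_ge`: strong induction on the length of `l`. If `srcs v l` has a repetition, split; then
`wsum l = wsum l1 + wsum l2 + wsum l3`, `wsum l2 ≥ 0` (the vertex `c` is in `Rg` since `Rg` is closed along walks) and
`wsum (l1 ++ l3) ≥ - tot` by induction. If `srcs v l` has no repetition: `wsum l ≥ - Σ_{e ∈ l} binVal e.2.2`, each edge `e` of
the walk at the source `s` is in `edges A s` (`Av` with `hσ`), `s < A.length`, and the sources are distinct, so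
`Σ_{e ∈ l} binVal e.2.2 ≤ Σ_{s < A.length} Σ_{e ∈ edges A s} binVal e.2.2 = tot A` (for instance by comparing with
`∑ s ∈ Finset.range A.length, ((edges A s).map fun e => binVal e.2.2).sum`; show first that this sum is `tot A`).
-/

namespace Pool.Agent.Work.MP_85af13_lc.G

open Pool.Agent.Work.PolyTime
open Pool.Agent.Work.MP_63b90e_lc (addB shiftB)
open Pool.Agent.Work.MP_62a643_lc (leB mulN dv)

theorem Walk.append {A : Arena} {σ : ℕ → WEdge} {v c u : ℕ} {l m : List WEdge}
    (h1 : Walk A σ v l c) (h2 : Walk A σ c m u) : Walk A σ v (l ++ m) u := by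
  induction h1 with
  | nil v => exact h2
  | cons h _ ih => exact Walk.cons h (ih h2)

theorem wsum_append (l m : List WEdge) : wsum (l ++ m) = wsum l + wsum m := by
  unfold wsum
  rw [List.map_append, List.sum_append]

theorem tot_eq (A : Arena) :
    tot A = ∑ s ∈ Finset.range A.length, ((edges A s).map fun e => binVal e.2.2).sum := by
  unfold tot
  induction A with
  | nil => rfl
  | cons a A ih =>
    rw [List.flatMap_cons, List.map_append, List.sum_append, ih, List.length_cons,
      Finset.sum_range_succ', add_comm]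
    rfl

/-- Splitting of a walk at a source. -/
theorem Walk.splitAt {A : Arena} {σ : ℕ → WEdge} {v u c : ℕ} {l : List WEdge}
    (h : Walk A σ v l u) (hc : c ∈ srcs v l) :
    ∃ a b, l = a ++ b ∧ b ≠ [] ∧ Walk A σ v a c ∧ Walk A σ c b u := by
  induction h with
  | nil v => exact absurd hc List.not_mem_nil
  | @cons v e l u hav hw ih =>
    by_cases hcv : c = v
    · subst hcv
      exact ⟨[], e :: l, rfl, List.cons_ne_nil _ _, Walk.nil _, Walk.cons hav hw⟩
    · have hc' : c ∈ srcs e.1 l := by
        have h1 : c ∈ v :: srcs e.1 l := hc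
        exact (List.mem_cons.1 h1).resolve_left hcv
      obtain ⟨a, b, h1, h2, h3, h4⟩ := ih hc'
      exact ⟨e :: a, b, by rw [h1, List.cons_append], h2, Walk.cons hav h3, h4⟩

/-- A walk with a repeated source contains a closed walk. -/
theorem Walk.split {A : Arena} {σ : ℕ → WEdge} {v u : ℕ} {l : List WEdge}
    (h : Walk A σ v l u) (hn : ¬ (srcs v l).Nodup) :
    ∃ c l1 l2 l3, l = l1 ++ (l2 ++ l3) ∧ l2 ≠ [] ∧ l1 ++ l3 ≠ [] ∧ Walk A σ v l1 c ∧
      Walk A σ c l2 c ∧ Walk A σ c l3 u := by
  induction h with
  | nil v => exact absurd List.nodup_nil hn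
  | @cons v e l u hav hw ih =>
    by_cases hv : v ∈ srcs e.1 l
    · obtain ⟨a, b, h1, h2, h3, h4⟩ := hw.splitAt hv
      exact ⟨v, [], e :: a, b, by rw [h1, List.nil_append, List.cons_append],
        List.cons_ne_nil _ _, by rwa [List.nil_append], Walk.nil _, Walk.cons hav h3, h4⟩
    · have hn' : ¬ (srcs e.1 l).Nodup := by
        intro h
        exact hn (show (v :: srcs e.1 l).Nodup from List.nodup_cons.2 ⟨hv, h⟩)
      obtain ⟨c, l1, l2, l3, h1, h2, h3, h4, h5, h6⟩ := ih hn'
      exact ⟨c, e :: l1, l2, l3, by rw [h1, List.cons_append], h2, by simp,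
        Walk.cons hav h4, h5, h6⟩

private theorem walk_rg (A : Arena) (σ : ℕ → WEdge) (Rg : ℕ → Prop)
    (hcl : ∀ v e, Rg v → Av A σ v e → Rg e.1) {v u : ℕ} {l : List WEdge} (hv : Rg v)
    (h : Walk A σ v l u) : Rg u := by
  induction h with
  | nil v => exact hv
  | cons hav _ ih => exact ih (hcl _ _ hv hav)

private theorem walk_aux (A : Arena) (σ : ℕ → WEdge)
    (hσ : ∀ v < A.length, owner A v = true → σ v ∈ edges A v) {v u : ℕ} {l : List WEdge}
    (h : Walk A σ v l u) : (∀ s ∈ srcs v l, s < A.length) ∧
      (l.map fun e => binVal e.2.2).sum ≤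
        ((srcs v l).map fun s => ((edges A s).map fun e => binVal e.2.2).sum).sum ∧
      -(((l.map fun e => binVal e.2.2).sum : ℕ) : ℤ) ≤ wsum l := by
  induction h with
  | nil v =>
    refine ⟨fun s hs => absurd hs List.not_mem_nil, le_rfl, ?_⟩
    simp [wsum]
  | @cons v e l u hav hw ih =>
    obtain ⟨ih1, ih2, ih3⟩ := ih
    have he : e ∈ edges A v := by
      have h1 := hav.2
      by_cases ho : owner A v = true
      · rw [if_pos ho] at h1
        rw [h1]
        exact hσ v hav.1 ho
      · rw [if_neg ho] at h1
        exact h1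
    refine ⟨?_, ?_, ?_⟩
    · intro s hs
      have h1 : s ∈ v :: srcs e.1 l := hs
      rcases List.mem_cons.1 h1 with h2 | h2
      · rw [h2]
        exact hav.1
      · exact ih1 s h2
    · have h1 : binVal e.2.2 ≤ ((edges A v).map fun e => binVal e.2.2).sum :=
        List.le_sum_of_mem (List.mem_map_of_mem (f := fun e : WEdge => binVal e.2.2) he)
      show ((e :: l).map fun e => binVal e.2.2).sum ≤
        ((v :: srcs e.1 l).map fun s => ((edges A s).map fun e => binVal e.2.2).sum).sum
      rw [List.map_cons, List.map_cons, List.sum_cons, List.sum_cons]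
      exact Nat.add_le_add h1 ih2
    · have h1 : -(binVal e.2.2 : ℤ) ≤ wgt e := by
        unfold wgt
        split
        · exact le_rfl
        · have : (0 : ℤ) ≤ binVal e.2.2 := Int.natCast_nonneg _
          linarith
      have h2 : wsum (e :: l) = wgt e + wsum l := by
        unfold wsum
        rw [List.map_cons, List.sum_cons]
      rw [h2, List.map_cons, List.sum_cons]
      push_cast
      push_cast at ih3
      linarith

theorem walk_ge (A : Arena) (σ : ℕ → WEdge) (Rg : ℕ → Prop)
    (hcl : ∀ v e, Rg v → Av A σ v e → Rg e.1)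
    (hσ : ∀ v < A.length, owner A v = true → σ v ∈ edges A v)
    (hnn : ∀ c l, Rg c → Walk A σ c l c → 0 ≤ wsum l) (v u : ℕ) (l : List WEdge) (hv : Rg v)
    (h : Walk A σ v l u) : -(tot A : ℤ) ≤ wsum l := by
  obtain ⟨n, hn⟩ : ∃ n, n = l.length := ⟨_, rfl⟩
  induction n using Nat.strong_induction_on generalizing l with
  | _ n ih =>
    by_cases hnd : (srcs v l).Nodup
    · obtain ⟨h1, h2, h3⟩ := walk_aux A σ hσ h
      have h4 : ((srcs v l).map fun s => ((edges A s).map fun e => binVal e.2.2).sum).sum ≤
          tot A := by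
        rw [tot_eq, ← List.sum_toFinset _ hnd]
        refine Finset.sum_le_sum_of_subset ?_
        intro s hs
        exact Finset.mem_range.2 (h1 s (List.mem_toFinset.1 hs))
      have h5 : (((l.map fun e => binVal e.2.2).sum : ℕ) : ℤ) ≤ (tot A : ℤ) := by
        exact_mod_cast h2.trans h4
      linarith
    · obtain ⟨c, l1, l2, l3, e1, e2, e3, w1, w2, w3⟩ := h.split hnd
      have hc : Rg c := walk_rg A σ Rg hcl hv w1
      have h1 := hnn c l2 hc w2
      have h2 : (l1 ++ l3).length < n := by
        rw [hn, e1]
        have h6 : 0 < l2.length := List.length_pos_iff.2 e2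
        simp only [List.length_append]
        omega
      have h3 := ih _ h2 (l1 ++ l3) (w1.append w3) rfl
      rw [wsum_append] at h3
      rw [e1, wsum_append, wsum_append]
      linarith

end Pool.Agent.Work.MP_85af13_lc.G
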